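import Pool.Agent.H3.PS.ETA
import Pool.Agent.H3.PS.UP
import Pool.Agent.H3.PS.LAST
import Pool.Agent.H19.PS.LA
import Pool.Agent.H28.PS.BP
import Pool.Agent.H28.PS.MES
import Pool.Agent.H36.PS.STG
import Pool.Agent.H42.PS.MT
import Pool.Agent.H43.PS.CL
import Pool.Agent.H80.PS.DET
import Pool.Agent.H96.PS.LOW
import Pool.Agent.H96.PS.PLPU
import Pool.Agent.H98.PS.MAP

/-!
# The abelian sandpile with Poisson heights in high dimension: a typical site topples above density `(1 + o(1)) d` and not below

Abelian sandpile on `ℤ^d` with parallel updates, i.i.d. Poisson heights of mean `l`. The sandpile percolates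
(every site topples infinitely often) if and only if every site topples at least once. For all `ε` and all large
`d`: if `l ≤ (1 - ε) d` then a given site topples with probability at most `exp (-ε² d / 32)`; if `l ≥ (1 + ε) d`
then it topples with probability at least `1 - exp (-ε² d / 32)`. So for every fixed `η` in `(0, 1)` the density
above which a site topples with probability at least `η` is `(1 + o(1)) d`.
-/

set_option autoImplicit false

namespace Pool.Agent.Results.MP_40d30a_pr.TopplingThreshold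

open MeasureTheory ProbabilityTheory Filter Topology
open Pool.Agent.Helper581.Sand

/-- **Theorem.** `run a t x` is the number of grains at `x` at time `t` in the parallel sandpile on `ℤ^d` started
from `a` (a site with at least `2 d` grains topples), `Percolates a`: every site topples infinitely often,
`poissonField d l`: independent Poisson variables of mean `l`.

1. `a` percolates if and only if every site topples at least once.
2. For `0 < ε ≤ 1`, all `d ≥ d0(ε)` and all `l`: if `l ≤ (1 - ε) d`, the origin topples with probability at most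
   `exp (-ε² d / 32)`; if `l ≥ (1 + ε) d`, it never topples with probability at most `exp (-ε² d / 32)`.
3. For `0 < η < 1` let `l_η(d)` be the infimum of the densities `l > 0` at which the origin topples with probability
   at least `η`. Then `l_η(d) / d → 1` as `d → ∞`. -/
theorem result :
    (∀ d : ℕ, 1 ≤ d → ∀ a : (Fin d → ℤ) → ℤ,
      (Percolates a ↔ ∀ x, ∃ t : ℕ, 2 * (d : ℤ) ≤ run a t x)) ∧
    (∀ ε : ℝ, 0 < ε → ε ≤ 1 → ∃ d0 : ℕ, ∀ d : ℕ, d0 ≤ d → ∀ l : NNReal,
      ((l : ℝ) ≤ (1 - ε) * d →
        (poissonField d l).real {ω | ∃ t : ℕ, 2 * (d : ℤ) ≤ run (fun x => (ω x : ℤ)) t 0} ≤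
          Real.exp (-(ε ^ 2 * d / 32))) ∧
      ((1 + ε) * d ≤ (l : ℝ) →
        (poissonField d l).real {ω | ¬ ∃ t : ℕ, 2 * (d : ℤ) ≤ run (fun x => (ω x : ℤ)) t 0} ≤
          Real.exp (-(ε ^ 2 * d / 32)))) ∧
    (∀ η : ℝ, 0 < η → η < 1 → Tendsto (fun d : ℕ => sInf {l : ℝ | 0 < l ∧
      η ≤ (poissonField d l.toNNReal).real
        {ω | ∃ t : ℕ, 2 * (d : ℤ) ≤ run (fun x => (ω x : ℤ)) t 0}} / (d : ℝ)) atTop (𝓝 1)) := by
  have hCL := Pool.Agent.H43.PS.CL Pool.Agent.H36.PS.STG Pool.Agent.H28.PS.BP Pool.Agent.H28.PS.MES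
  have hLOW := Pool.Agent.H96.PS.LOW (Pool.Agent.H3.PS.MT Pool.Agent.H3.PS.LAST')
    Pool.Agent.H96.PS.PU
  have hUP := Pool.Agent.H3.PS.UP Pool.Agent.H3.PS.LA Pool.Agent.H3.PS.DET hCL
    Pool.Agent.H98.PS.t_MAP Pool.Agent.H28.PS.MES Pool.Agent.H96.PS.PL
  obtain ⟨h1, h2⟩ := Pool.Agent.H3.PS.FIN hLOW hUP
  exact ⟨fun d hd a => Pool.Agent.H3.PS.PC d hd a, h1, h2⟩

end Pool.Agent.Results.MP_40d30a_pr.TopplingThreshold
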